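import Pool.Agent.helper58.CRO.SpecH

/-! # Row cro:HK2: the inequality of Kazdan for bounded measurable weights -/

open scoped Manifold ContDiff Topology ENNReal
open MeasureTheory Set Filter

noncomputable section

namespace Pool.Agent.CRO

/-- approximation of a bounded measurable function by continuous functions -/
theorem HK2_approx (a C : ℝ) (θ : ℝ → ℝ) (hθ : Measurable θ) (hb : ∀ u, 0 ≤ θ u ∧ θ u ≤ C) :
    ∃ g : ℕ → ℝ → ℝ, (∀ i, Continuous (g i)) ∧ (∀ i u, 0 < g i u) ∧ (∀ i u, g i u ≤ C + 1) ∧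
      ∀ᵐ u ∂(volume.restrict (Ioo (-a) a)), Tendsto (fun i => g i u) atTop (𝓝 (θ u)) := by
  have hC : 0 ≤ C := (hb 0).1.trans (hb 0).2
  have hmem : MemLp ((Ioo (-a) a).indicator θ) 1 volume := by
    rw [memLp_indicator_iff_restrict measurableSet_Ioo]
    refine MemLp.of_bound hθ.aestronglyMeasurable C ?_
    refine Eventually.of_forall (fun u => ?_)
    rw [Real.norm_eq_abs, abs_of_nonneg (hb u).1]
    exact (hb u).2
  have hch : ∀ i : ℕ, ∃ g : ℝ → ℝ, Continuous g ∧
      eLpNorm ((Ioo (-a) a).indicator θ - g) 1 volume ≤ ((i : ℝ≥0∞))⁻¹ := by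
    intro i
    obtain ⟨g, _, h2, h3, _⟩ := hmem.exists_hasCompactSupport_eLpNorm_sub_le (by norm_num)
      (ε := ((i : ℝ≥0∞))⁻¹) (by simp)
    exact ⟨g, h3, h2⟩
  choose g hgc hg using hch
  have hmeas : TendstoInMeasure volume g atTop ((Ioo (-a) a).indicator θ) := by
    apply tendstoInMeasure_of_tendsto_eLpNorm (p := 1) one_ne_zero
      (fun i => (hgc i).aestronglyMeasurable) hmem.1
    refine tendsto_of_tendsto_of_tendsto_of_le_of_le tendsto_const_nhds
      ENNReal.tendsto_inv_nat_nhds_zero (fun i => bot_le) (fun i => ?_)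
    rw [eLpNorm_sub_comm]
    exact hg i
  obtain ⟨ns, _, hns⟩ := hmeas.exists_seq_tendsto_ae
  refine ⟨fun i u => min (max (g (ns i) u) 0) C + 1 / ((i : ℝ) + 1), ?_, ?_, ?_, ?_⟩
  · intro i
    exact (((hgc (ns i)).max continuous_const).min continuous_const).add continuous_const
  · intro i u
    have h1 : 0 ≤ min (max (g (ns i) u) 0) C := le_min (le_max_right _ _) hC
    have h2 : (0 : ℝ) < 1 / ((i : ℝ) + 1) := by positivity
    linarith
  · intro i u
    have h1 : min (max (g (ns i) u) 0) C ≤ C := min_le_right _ _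
    have h2 : (1 : ℝ) / ((i : ℝ) + 1) ≤ 1 := by
      rw [div_le_one (by positivity)]
      have : (0 : ℝ) ≤ i := Nat.cast_nonneg i
      linarith
    linarith
  · rw [ae_restrict_iff' measurableSet_Ioo]
    filter_upwards [hns] with u hu hmem
    rw [indicator_of_mem hmem] at hu
    have h1 : Tendsto (fun i => min (max (g (ns i) u) 0) C) atTop (𝓝 (min (max (θ u) 0) C)) :=
      (hu.max tendsto_const_nhds).min tendsto_const_nhds
    have h2 : min (max (θ u) 0) C = θ u := by
      rw [max_eq_left (hb u).1, min_eq_left (hb u).2]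
    rw [h2] at h1
    have h3 : Tendsto (fun i : ℕ => (1 : ℝ) / ((i : ℝ) + 1)) atTop (𝓝 0) :=
      tendsto_one_div_add_atTop_nhds_zero_nat
    have h4 := h1.add h3
    rwa [add_zero] at h4

/-- the double integral over the triangle as an integral over the square -/
theorem HK2_rw (a : ℝ) (F : ℝ × ℝ → ℝ≥0∞) (hF : Measurable F) :
    ∫⁻ s in Ioo (-a) a, ∫⁻ t in Ioo s a, F (s, t) =
      ∫⁻ p, {p : ℝ × ℝ | p.1 < p.2}.indicator F p
        ∂((volume.restrict (Ioo (-a) a)).prod (volume.restrict (Ioo (-a) a))) := by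
  have hm : MeasurableSet {p : ℝ × ℝ | p.1 < p.2} := measurableSet_lt measurable_fst measurable_snd
  rw [lintegral_prod _ (hF.indicator hm).aemeasurable]
  apply setLIntegral_congr_fun measurableSet_Ioo
  intro s hs
  have h1 : (fun t => {p : ℝ × ℝ | p.1 < p.2}.indicator F (s, t)) = (Ioi s).indicator (fun t => F (s, t)) := by
    funext t
    by_cases h : s < t
    · rw [indicator_of_mem (show ((s, t) : ℝ × ℝ) ∈ {p : ℝ × ℝ | p.1 < p.2} from h),
        indicator_of_mem (show t ∈ Ioi s from h)]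
    · rw [indicator_of_notMem (show ((s, t) : ℝ × ℝ) ∉ {p : ℝ × ℝ | p.1 < p.2} from h),
        indicator_of_notMem (show t ∉ Ioi s from h)]
  simp only
  rw [h1, lintegral_indicator measurableSet_Ioi, Measure.restrict_restrict measurableSet_Ioi]
  have h2 : Ioi s ∩ Ioo (-a) a = Ioo s a := by
    ext t
    simp only [mem_inter_iff, mem_Ioi, mem_Ioo]
    constructor
    · rintro ⟨h3, _, h4⟩
      exact ⟨h3, h4⟩
    · rintro ⟨h3, h4⟩
      exact ⟨h3, hs.1.trans h3, h4⟩
  rw [h2]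

theorem HK2 (h1 : HK1_stmt) : HK2_stmt := by
  intro n hn a C θ ψ ha hθ hb hψ hψ0
  have hC : 0 ≤ C := (hb 0).1.trans (hb 0).2
  obtain ⟨g, hg1, hg2, hg3, hg4⟩ := HK2_approx a C θ hθ hb
  have haa : -a ≤ a := by linarith
  -- the continuous extension of ψ
  obtain ⟨ψ', hψ'⟩ : ∃ ψ' : ℝ → ℝ, ψ' = fun u => ψ (projIcc (-a) a haa u) := ⟨_, rfl⟩
  have hψ'c : Continuous ψ' := by
    rw [hψ']
    exact hψ.comp_continuous (continuous_subtype_val.comp continuous_projIcc) (fun u => (projIcc (-a) a haa u).2)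
  have hψ'0 : ∀ u, 0 < ψ' u := by
    intro u
    rw [hψ']
    exact hψ0 _ (projIcc (-a) a haa u).2
  have hψ'e : ∀ u ∈ Icc (-a) a, ψ' u = ψ u := by
    intro u hu
    rw [hψ']
    simp only
    rw [projIcc_of_mem haa hu]
  have hic : Continuous (fun r => (ψ' r ^ 2)⁻¹) :=
    (hψ'c.pow 2).inv₀ (fun u => (pow_pos (hψ'0 u) 2).ne')
  obtain ⟨G, hG⟩ : ∃ G : ℝ → ℝ, G = fun x => ∫ r in (0 : ℝ)..x, (ψ' r ^ 2)⁻¹ := ⟨_, rfl⟩
  have hGc : Continuous G := by
    rw [hG]
    exact intervalIntegral.continuous_primitive (fun a b => hic.intervalIntegrable a b) 0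
  have hGe : ∀ s t, ∫ r in s..t, (ψ' r ^ 2)⁻¹ = G t - G s := by
    intro s t
    rw [hG]
    exact (intervalIntegral.integral_interval_sub_left (hic.intervalIntegrable _ _)
      (hic.intervalIntegrable _ _)).symm
  obtain ⟨K, hK⟩ : ∃ K : ℝ × ℝ → ℝ, K = fun p => (ψ' p.1 * ψ' p.2 * (G p.2 - G p.1)) ^ (n - 1) := ⟨_, rfl⟩
  have hKc : Continuous K := by
    rw [hK]
    exact (((hψ'c.comp continuous_fst).mul (hψ'c.comp continuous_snd)).mul
      ((hGc.comp continuous_snd).sub (hGc.comp continuous_fst))).pow (n - 1)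
  obtain ⟨B, hB⟩ := (isCompact_Icc.prod isCompact_Icc : IsCompact (Icc (-a) a ×ˢ Icc (-a) a)).exists_bound_of_continuousOn
    hKc.continuousOn
  have hB0 : 0 ≤ B := by
    have h0 : (0 : ℝ) ∈ Icc (-a) a := ⟨by linarith, ha.le⟩
    exact (norm_nonneg _).trans (hB (0, 0) ⟨h0, h0⟩)
  -- the right side for a weight
  obtain ⟨F, hF⟩ : ∃ F : (ℝ → ℝ) → ℝ × ℝ → ℝ≥0∞, F = fun w p =>
    ENNReal.ofReal (K p * Real.sqrt (w p.1 * w p.2) ^ (n + 1)) := ⟨_, rfl⟩
  have hFm : ∀ w : ℝ → ℝ, Measurable w → Measurable (F w) := by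
    intro w hw
    rw [hF]
    exact ENNReal.measurable_ofReal.comp (hKc.measurable.mul
      ((((hw.comp measurable_fst).mul (hw.comp measurable_snd)).sqrt).pow_const (n + 1)))
  have hrhs : ∀ w : ℝ → ℝ, Measurable w → ∫⁻ s in Ioo (-a) a, ∫⁻ t in Ioo s a,
        ENNReal.ofReal ((ψ s * ψ t * ∫ r in s..t, (ψ r ^ 2)⁻¹) ^ (n - 1) *
          Real.sqrt (w s * w t) ^ (n + 1)) = ∫⁻ p, {p : ℝ × ℝ | p.1 < p.2}.indicator (F w) p
        ∂((volume.restrict (Ioo (-a) a)).prod (volume.restrict (Ioo (-a) a))) := by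
    intro w hw
    rw [← HK2_rw a (F w) (hFm w hw)]
    apply setLIntegral_congr_fun measurableSet_Ioo
    intro s hs
    apply setLIntegral_congr_fun measurableSet_Ioo
    intro t ht
    have hs' : s ∈ Icc (-a) a := ⟨hs.1.le, hs.2.le⟩
    have ht' : t ∈ Icc (-a) a := ⟨(hs.1.trans ht.1).le, ht.2.le⟩
    have e1 : ∫ r in s..t, (ψ r ^ 2)⁻¹ = ∫ r in s..t, (ψ' r ^ 2)⁻¹ := by
      apply intervalIntegral.integral_congr
      intro r hr
      rw [uIcc_of_le ht.1.le] at hr
      simp only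
      rw [hψ'e r ⟨hs'.1.trans hr.1, hr.2.trans ht'.2⟩]
    rw [hF, hK]
    simp only
    rw [e1, hGe, hψ'e s hs', hψ'e t ht']
  have hmeasg : ∀ i, Measurable (g i) := fun i => (hg1 i).measurable
  -- convergence of the right sides
  have hconvR : Tendsto (fun i => ∫⁻ s in Ioo (-a) a, ∫⁻ t in Ioo s a,
        ENNReal.ofReal ((ψ s * ψ t * ∫ r in s..t, (ψ r ^ 2)⁻¹) ^ (n - 1) *
          Real.sqrt (g i s * g i t) ^ (n + 1))) atTop (𝓝 (∫⁻ s in Ioo (-a) a, ∫⁻ t in Ioo s a,
        ENNReal.ofReal ((ψ s * ψ t * ∫ r in s..t, (ψ r ^ 2)⁻¹) ^ (n - 1) *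
          Real.sqrt (θ s * θ t) ^ (n + 1)))) := by
    rw [hrhs θ hθ]
    have : (fun i => ∫⁻ s in Ioo (-a) a, ∫⁻ t in Ioo s a,
        ENNReal.ofReal ((ψ s * ψ t * ∫ r in s..t, (ψ r ^ 2)⁻¹) ^ (n - 1) *
          Real.sqrt (g i s * g i t) ^ (n + 1))) = fun i => ∫⁻ p, {p : ℝ × ℝ | p.1 < p.2}.indicator (F (g i)) p
        ∂((volume.restrict (Ioo (-a) a)).prod (volume.restrict (Ioo (-a) a))) := by
      funext i
      exact hrhs (g i) (hmeasg i)
    rw [this]
    have hm : MeasurableSet {p : ℝ × ℝ | p.1 < p.2} := measurableSet_lt measurable_fst measurable_snd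
    apply tendsto_lintegral_of_dominated_convergence (fun _ => ENNReal.ofReal (B * (C + 1) ^ (n + 1)))
      (fun i => (hFm (g i) (hmeasg i)).indicator hm)
    · intro i
      rw [Measure.prod_restrict]
      filter_upwards [ae_restrict_mem (measurableSet_Ioo.prod measurableSet_Ioo)] with p hp
      refine (indicator_le_self _ _ p).trans ?_
      rw [hF]
      apply ENNReal.ofReal_le_ofReal
      have hp' : p ∈ Icc (-a) a ×ˢ Icc (-a) a :=
        ⟨⟨hp.1.1.le, hp.1.2.le⟩, ⟨hp.2.1.le, hp.2.2.le⟩⟩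
      have hKB : K p ≤ B := (le_abs_self _).trans (hB p hp')
      have hsq : Real.sqrt (g i p.1 * g i p.2) ≤ C + 1 := by
        rw [Real.sqrt_le_left (by linarith), sq]
        exact mul_le_mul (hg3 i _) (hg3 i _) (hg2 i _).le (by linarith)
      calc K p * Real.sqrt (g i p.1 * g i p.2) ^ (n + 1) ≤ B * Real.sqrt (g i p.1 * g i p.2) ^ (n + 1) :=
            mul_le_mul_of_nonneg_right hKB (pow_nonneg (Real.sqrt_nonneg _) _)
        _ ≤ B * (C + 1) ^ (n + 1) :=
            mul_le_mul_of_nonneg_left (pow_le_pow_left₀ (Real.sqrt_nonneg _) hsq _) hB0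
    · rw [lintegral_const]
      exact ENNReal.mul_ne_top ENNReal.ofReal_ne_top (measure_ne_top _ _)
    · have a1 : ∀ᵐ p ∂((volume.restrict (Ioo (-a) a)).prod (volume.restrict (Ioo (-a) a))),
          Tendsto (fun i => g i p.1) atTop (𝓝 (θ p.1)) :=
        Measure.quasiMeasurePreserving_fst.ae hg4
      have a2 : ∀ᵐ p ∂((volume.restrict (Ioo (-a) a)).prod (volume.restrict (Ioo (-a) a))),
          Tendsto (fun i => g i p.2) atTop (𝓝 (θ p.2)) :=
        Measure.quasiMeasurePreserving_snd.ae hg4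
      filter_upwards [a1, a2] with p hp1 hp2
      by_cases hlt : p ∈ {p : ℝ × ℝ | p.1 < p.2}
      · have e : ∀ w : ℝ → ℝ, {p : ℝ × ℝ | p.1 < p.2}.indicator (F w) p = F w p :=
          fun w => indicator_of_mem hlt _
        simp only [e]
        rw [hF]
        apply (ENNReal.continuous_ofReal.tendsto _).comp
        exact ((((Real.continuous_sqrt.tendsto _).comp (hp1.mul hp2)).pow (n + 1)).const_mul (K p))
      · have e : ∀ w : ℝ → ℝ, {p : ℝ × ℝ | p.1 < p.2}.indicator (F w) p = 0 :=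
          fun w => indicator_of_notMem hlt _
        simp only [e]
        exact tendsto_const_nhds
  -- convergence of the left sides
  have hconvI : Tendsto (fun i => ∫ u in (-a)..a, g i u) atTop (𝓝 (∫ u in (-a)..a, θ u)) := by
    apply intervalIntegral.tendsto_integral_filter_of_dominated_convergence (fun _ => C + 1)
    · exact Eventually.of_forall (fun i => (hmeasg i).aestronglyMeasurable)
    · refine Eventually.of_forall (fun i => Eventually.of_forall (fun u _ => ?_))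
      rw [Real.norm_eq_abs, abs_of_pos (hg2 i u)]
      exact hg3 i u
    · exact intervalIntegrable_const
    · have h5 : ∀ᵐ u ∂(volume : Measure ℝ), u ∈ Ioo (-a) a → Tendsto (fun i => g i u) atTop (𝓝 (θ u)) :=
        (ae_restrict_iff' measurableSet_Ioo).1 hg4
      have h6 : ∀ᵐ u ∂(volume : Measure ℝ), u ≠ a := by
        rw [ae_iff]
        simp
      filter_upwards [h5, h6] with u hu hua humem
      rw [uIoc_of_le haa] at humem
      exact hu ⟨humem.1, lt_of_le_of_ne humem.2 hua⟩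
  have hconvL : Tendsto (fun i => ENNReal.ofReal (cK n * (∫ u in (-a)..a, g i u) ^ (n + 1))) atTop
      (𝓝 (ENNReal.ofReal (cK n * (∫ u in (-a)..a, θ u) ^ (n + 1)))) :=
    (ENNReal.continuous_ofReal.tendsto _).comp ((hconvI.pow (n + 1)).const_mul (cK n))
  exact le_of_tendsto_of_tendsto' hconvL hconvR (fun i =>
    h1 n hn a (g i) ψ ha (hg1 i) (hg2 i) hψ hψ0)

end Pool.Agent.CRO
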