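import Pool.Agent.helper58.CRO.SpecH
import Pool.Agent.helper66.CRO.HVC
import Pool.Agent.helper50.CRO.HVA

/-! # Row cro:HSC: the derivative of the flow in the direction `(0, p)` -/

open scoped Manifold ContDiff Topology ENNReal
open MeasureTheory Set

noncomputable section

namespace Pool.Agent.CRO

theorem HSC_nrm2 {n : ℕ} {r0 : ℝ} (𝒢 : NChart n r0) (x p : En n) (c : ℝ) :
    nrm2 𝒢 (x, c • p) = c ^ 2 * nrm2 𝒢 (x, p) := by
  unfold nrm2
  simp only [map_smul]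
  rw [real_inner_smul_left, real_inner_smul_right]
  ring

theorem HSC_part2 {n : ℕ} {r0 r1 : ℝ} (𝒢 : NChart n r0) (h01 : r1 < r0) {H : PS n → ℝ}
    (hH : ContDiff ℝ ∞ H) (heq : ∀ z : PS n, ‖z.1‖ < r1 → nrm2 𝒢 z < 2 → H z = ham 𝒢 z)
    (x p : En n) (c : ℝ) (hx : ‖x‖ < r1) (h1 : nrm2 𝒢 (x, p) < 2) (h2 : nrm2 𝒢 (x, c • p) < 2) :
    (hvf H (x, c • p)).2 = c ^ 2 • (hvf H (x, p)).2 := by
  have hd : Differentiable ℝ H := hH.differentiable (by simp)
  have e : (fderiv ℝ H (x, c • p)).comp (ContinuousLinearMap.inl ℝ (En n) (En n)) =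
      c ^ 2 • (fderiv ℝ H (x, p)).comp (ContinuousLinearMap.inl ℝ (En n) (En n)) := by
    have d1 : HasFDerivAt (fun x' : En n => H (x', c • p))
        ((fderiv ℝ H (x, c • p)).comp (ContinuousLinearMap.inl ℝ (En n) (En n))) x :=
      (hd (x, c • p)).hasFDerivAt.comp x (hasFDerivAt_prodMk_left x (c • p))
    have d2 : HasFDerivAt (fun x' : En n => H (x', p))
        ((fderiv ℝ H (x, p)).comp (ContinuousLinearMap.inl ℝ (En n) (En n))) x :=
      (hd (x, p)).hasFDerivAt.comp x (hasFDerivAt_prodMk_left x p)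
    have d3 := d2.const_mul (c ^ 2)
    refine d1.unique (d3.congr_of_eventuallyEq ?_)
    have c1 : ContinuousAt (fun x' : En n => ((x', p) : PS n)) x := by fun_prop
    have c2 : ContinuousAt (fun x' : En n => ((x', c • p) : PS n)) x := by fun_prop
    filter_upwards [c1 (HVA_nhds 𝒢 h01 (z := (x, p)) hx h1),
      c2 (HVA_nhds 𝒢 h01 (z := (x, c • p)) hx h2)] with x' hx1 hx2
    rw [heq _ hx1.1 hx1.2, heq _ hx2.1 hx2.2]
    unfold ham
    rw [HSC_nrm2]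
    ring
  show -(HVC_T n) ((fderiv ℝ H (x, c • p)).comp (ContinuousLinearMap.inl ℝ (En n) (En n))) =
    c ^ 2 • -(HVC_T n) ((fderiv ℝ H (x, p)).comp (ContinuousLinearMap.inl ℝ (En n) (En n)))
  rw [e, map_smul, smul_neg]

theorem HSC_euler {n : ℕ} {r0 r1 : ℝ} (𝒢 : NChart n r0) (h01 : r1 < r0) {H : PS n → ℝ}
    (hH : ContDiff ℝ ∞ H) (heq : ∀ z : PS n, ‖z.1‖ < r1 → nrm2 𝒢 z < 2 → H z = ham 𝒢 z)
    (hG : ∀ z : PS n, ‖z.1‖ < r1 → nrm2 𝒢 z < 2 → (hvf H z).1 = 𝒢.G z.1 z.2)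
    (w : PS n) (hw : ‖w.1‖ < r1) (hw2 : nrm2 𝒢 w < 2) :
    fderiv ℝ (hvf H) w (0, w.2) = ((0 : En n), (hvf H w).2) + hvf H w := by
  have hw1 : ((w.1, (1 : ℝ) • w.2) : PS n) = w := by rw [one_smul]
  have d0 : HasDerivAt (fun c : ℝ => ((w.1, c • w.2) : PS n)) ((0 : En n), w.2) 1 := by
    refine (hasDerivAt_const (1 : ℝ) w.1).prodMk ?_
    have := (hasDerivAt_id (1 : ℝ)).smul_const w.2
    rwa [one_smul] at this
  have dF : HasFDerivAt (hvf H) (fderiv ℝ (hvf H) w) ((w.1, (1 : ℝ) • w.2) : PS n) := by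
    rw [hw1]
    exact (HVA_diff hH w).hasFDerivAt
  have d1 : HasDerivAt (fun c : ℝ => hvf H (w.1, c • w.2)) (fderiv ℝ (hvf H) w ((0 : En n), w.2)) 1 :=
    HasFDerivAt.comp_hasDerivAt (l := hvf H) (f := fun c : ℝ => ((w.1, c • w.2) : PS n)) (1 : ℝ) dF d0
  have d2 : HasDerivAt (fun c : ℝ => ((c • (hvf H w).1, c ^ 2 • (hvf H w).2) : PS n))
      ((hvf H w).1, (2 : ℝ) • (hvf H w).2) 1 := by
    refine HasDerivAt.prodMk ?_ ?_
    · have := (hasDerivAt_id (1 : ℝ)).smul_const (hvf H w).1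
      rwa [one_smul] at this
    · have := (hasDerivAt_pow 2 (1 : ℝ)).smul_const (hvf H w).2
      norm_num at this
      exact this
  have hev : (fun c : ℝ => hvf H (w.1, c • w.2)) =ᶠ[𝓝 1]
      (fun c : ℝ => ((c • (hvf H w).1, c ^ 2 • (hvf H w).2) : PS n)) := by
    have c1 : ContinuousAt (fun c : ℝ => ((w.1, c • w.2) : PS n)) 1 := by fun_prop
    have h1 : ∀ᶠ y in 𝓝 ((w.1, (1 : ℝ) • w.2) : PS n), ‖y.1‖ < r1 ∧ nrm2 𝒢 y < 2 := by
      rw [hw1]
      exact HVA_nhds 𝒢 h01 hw hw2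
    filter_upwards [c1 h1] with c hc
    have e2 := HSC_part2 𝒢 h01 hH heq w.1 w.2 c hw hw2 hc.2
    have e1 : (hvf H (w.1, c • w.2)).1 = c • (hvf H w).1 := by
      rw [hG _ hc.1 hc.2, hG w hw hw2]
      exact map_smul _ _ _
    exact Prod.ext e1 e2
  have h3 := d1.unique (d2.congr_of_eventuallyEq hev)
  rw [h3]
  apply Prod.ext
  · simp
  · simp [two_smul]

theorem HSC (h1 : HVA_stmt) (h2 : NRG_stmt) : HSC_stmt := by
  intro n r0 r1 𝒢 H Φ hΦ z t hz hs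
  have hG : ∀ w : PS n, ‖w.1‖ < r1 → nrm2 𝒢 w < 2 → (hvf H w).1 = 𝒢.G w.1 w.2 := fun w hw hw2 =>
    (h1 n r0 r1 𝒢 H Φ hΦ w hw hw2).1
  obtain ⟨hXs, hXc⟩ := HVC n H hΦ.smoothH hΦ.cptH
  have hXd : Differentiable ℝ (hvf H) := hXs.differentiable (by simp)
  have hXf : Continuous (fderiv ℝ (hvf H)) := hXs.continuous_fderiv (by simp)
  obtain ⟨C, hC⟩ := (hXc.fderiv (𝕜 := ℝ)).exists_bound_of_continuous hXf
  have hC0 : 0 ≤ C := (norm_nonneg _).trans (hC 0)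
  -- the energy along the orbit
  have hE : ∀ s ∈ uIcc 0 t, nrm2 𝒢 (Φ s z) < 2 := by
    intro s hst
    have := h2 n r0 r1 𝒢 H Φ hΦ z s hz (fun s' hs' => hs s' (uIcc_subset_uIcc left_mem_uIcc hst hs'))
    rw [this]
    linarith
  -- the two solutions
  have hv : ∀ s, HasDerivAt (fun s => fderiv ℝ (Φ s) z ((0 : En n), z.2))
      (fderiv ℝ (hvf H) (Φ s z) (fderiv ℝ (Φ s) z ((0 : En n), z.2))) s := by
    intro s
    have h3 := (hΦ.var z s).clm_apply (hasDerivAt_const s (((0 : En n), z.2) : PS n))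
    simpa using h3
  have hu : ∀ s ∈ uIcc 0 t, HasDerivAt (fun s => (((0 : En n), (Φ s z).2) : PS n) + s • hvf H (Φ s z))
      (fderiv ℝ (hvf H) (Φ s z) ((((0 : En n), (Φ s z).2) : PS n) + s • hvf H (Φ s z))) s := by
    intro s hst
    have hode := hΦ.ode z s
    have d1 : HasDerivAt (fun s => (((0 : En n), (Φ s z).2) : PS n)) ((0 : En n), (hvf H (Φ s z)).2) s := by
      refine (hasDerivAt_const s (0 : En n)).prodMk ?_
      exact (ContinuousLinearMap.snd ℝ (En n) (En n)).hasFDerivAt.comp_hasDerivAt s hode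
    have d2 : HasDerivAt (fun s => hvf H (Φ s z)) (fderiv ℝ (hvf H) (Φ s z) (hvf H (Φ s z))) s :=
      HasFDerivAt.comp_hasDerivAt (l := hvf H) (f := fun s => Φ s z) s (hXd (Φ s z)).hasFDerivAt hode
    have d3 := d1.add ((hasDerivAt_id s).smul d2)
    have he := HSC_euler 𝒢 hΦ.r1lt hΦ.smoothH hΦ.eqH hG (Φ s z) (hs s hst) (hE s hst)
    have e3 : fderiv ℝ (hvf H) (Φ s z) ((((0 : En n), (Φ s z).2) : PS n) + s • hvf H (Φ s z)) =
        ((0 : En n), (hvf H (Φ s z)).2) + (id s • fderiv ℝ (hvf H) (Φ s z) (hvf H (Φ s z)) +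
          (1 : ℝ) • hvf H (Φ s z)) := by
      rw [map_add, map_smul, he, one_smul, id]
      abel
    rw [e3]
    exact d3
  -- uniqueness on the unit interval
  have hmem : ∀ τ ∈ Icc (0 : ℝ) 1, τ * t ∈ uIcc 0 t := by
    intro τ hτ
    rw [mem_uIcc]
    rcases le_total 0 t with ht | ht
    · left
      exact ⟨mul_nonneg hτ.1 ht, mul_le_of_le_one_left ht hτ.2⟩
    · right
      exact ⟨le_mul_of_le_one_left ht hτ.2, mul_nonpos_of_nonneg_of_nonpos hτ.1 ht⟩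
  have hmul : ∀ τ : ℝ, HasDerivAt (fun τ : ℝ => τ * t) t τ := by
    intro τ
    simpa using (hasDerivAt_id τ).mul_const t
  have hf' : ∀ τ : ℝ, HasDerivAt (fun τ : ℝ => fderiv ℝ (Φ (τ * t)) z ((0 : En n), z.2))
      (t • fderiv ℝ (hvf H) (Φ (τ * t) z) (fderiv ℝ (Φ (τ * t)) z ((0 : En n), z.2))) τ := by
    intro τ
    exact HasDerivAt.scomp (h := fun τ : ℝ => τ * t) τ (hv (τ * t)) (hmul τ)
  have hg' : ∀ τ ∈ Icc (0 : ℝ) 1, HasDerivAt
      (fun τ : ℝ => (((0 : En n), (Φ (τ * t) z).2) : PS n) + (τ * t) • hvf H (Φ (τ * t) z))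
      (t • fderiv ℝ (hvf H) (Φ (τ * t) z)
        ((((0 : En n), (Φ (τ * t) z).2) : PS n) + (τ * t) • hvf H (Φ (τ * t) z))) τ := by
    intro τ hτ
    exact HasDerivAt.scomp (h := fun τ : ℝ => τ * t) τ (hu (τ * t) (hmem τ hτ)) (hmul τ)
  have hlip : ∀ τ : ℝ, LipschitzWith (Real.toNNReal (|t| * C))
      (fun x : PS n => t • fderiv ℝ (hvf H) (Φ (τ * t) z) x) := by
    intro τ
    refine LipschitzWith.of_dist_le_mul ?_
    intro x y
    rw [Real.coe_toNNReal _ (by positivity), dist_eq_norm, dist_eq_norm, ← smul_sub, ← map_sub, norm_smul,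
      Real.norm_eq_abs, mul_assoc]
    refine mul_le_mul_of_nonneg_left ?_ (abs_nonneg t)
    exact (ContinuousLinearMap.le_opNorm _ _).trans
      (mul_le_mul_of_nonneg_right (hC _) (norm_nonneg _))
  have huniq := ODE_solution_unique (v := fun τ (x : PS n) => t • fderiv ℝ (hvf H) (Φ (τ * t) z) x)
    hlip (f := fun τ : ℝ => fderiv ℝ (Φ (τ * t)) z ((0 : En n), z.2))
    (g := fun τ : ℝ => (((0 : En n), (Φ (τ * t) z).2) : PS n) + (τ * t) • hvf H (Φ (τ * t) z))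
    (a := 0) (b := 1)
    (fun τ _ => (hf' τ).continuousAt.continuousWithinAt)
    (fun τ _ => (hf' τ).hasDerivWithinAt)
    (fun τ hτ => (hg' τ hτ).continuousAt.continuousWithinAt)
    (fun τ hτ => (hg' τ ⟨hτ.1, hτ.2.le⟩).hasDerivWithinAt)
    (by
      have h0 : Φ 0 = id := by
        funext x
        exact hΦ.zero x
      simp only [zero_mul, zero_smul, add_zero, h0, fderiv_id, ContinuousLinearMap.coe_id', id])
  have h4 := huniq (right_mem_Icc.2 zero_le_one)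
  simp only [one_mul] at h4
  exact h4

end Pool.Agent.CRO
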